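import Pool.Agent.Lib.MP_09eaec_ag.Mg.G007
import Pool.Agent.Lib.MP_09eaec_ag.Mg.G019
import Pool.Agent.Lib.MP_09eaec_ag.Mg.G032

/-!
# TASK KronSys: the coherent systems given by stable Kronecker modules

`D = j • H`, `ddeg D = 2 j` (`ddeg_zsmul`), `E = pw D n`, degree `2 j n` (`deg_pw`). `(line D).H0` has dimension `j + 1` (`h0_smul`); let
`s : Fin (j + 1) → K` be a basis of it. `V0` from `KSt`. Let `T : (Fin n → Fin (j + 1) → k) →ₗ[k] (Fin n → K)`,
`(T v) i = ∑ l, v i l • s l`; injective (`s` is independent), `V = V0.map T`, `finrank V = d`, `V ≤ E.H0` (`mem_pw`).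
* `V ⊓ KU K U` (as `k`-subspace) is the image of `V0 ⊓ ten (j + 1) U`: `T v ∈ KU K U ↔ v ∈ ten (j + 1) U` by `mem_KU_iff` and `mem_ten`, since
  `∑ i, a i • (T v) i = ∑ l, (∑ i, a i • v i) l • s l`.
* `α = 1 / (2 n (d + 1))`, `J ≠ ⊥, ⊤` of rank `r`. By `pw_sub_le` `(E.sub J).deg ≤ 2 j r`. If `(E.sub J).deg ≤ 2 j r - 1`:
  `n ((E.sub J).deg + α dim (V ⊓ J)) ≤ 2 j r n - n + α n d < 2 j r n ≤ r (2 j n + α d)`. Otherwise `J = KU K U` (`pw_sub_eq`), `U ≠ ⊥, ⊤`,
  `finrank U = r` (`finrank_KU`), and `n dim (V ⊓ J) < d r` by the stability of `V0`.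
-/

set_option autoImplicit false

namespace Pool.Agent.MP_09eaec.GG

open Module

universe u v

variable {k : Type u} {K : Type v} [Field k] [Field K] [Algebra k K]

private noncomputable def KronSys_T {m : ℕ} (s : Fin m → K) (n : ℕ) :
    (Fin n → Fin m → k) →ₗ[k] (Fin n → K) where
  toFun v := fun i => ∑ l, v i l • s l
  map_add' v w := by
    funext i
    simp only [Pi.add_apply, add_smul, Finset.sum_add_distrib]
  map_smul' c v := by
    funext i
    simp only [Pi.smul_apply, smul_eq_mul, mul_smul, Finset.smul_sum, RingHom.id_apply]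

private lemma KronSys_T_apply {m : ℕ} (s : Fin m → K) (n : ℕ) (v : Fin n → Fin m → k)
    (i : Fin n) : KronSys_T (k := k) s n v i = ∑ l, v i l • s l := rfl

private lemma KronSys_inj {m : ℕ} {s : Fin m → K} (hs : LinearIndependent k s) (n : ℕ) :
    Function.Injective (KronSys_T (k := k) s n) := by
  rw [← LinearMap.ker_eq_bot, LinearMap.ker_eq_bot']
  intro v hv
  funext i l
  exact Fintype.linearIndependent_iff.1 hs (v i) (congrFun hv i) l

private lemma KronSys_mem {m : ℕ} {s : Fin m → K} (hs : LinearIndependent k s) {n : ℕ}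
    (U : Submodule k (Fin n → k)) (v : Fin n → Fin m → k) :
    KronSys_T s n v ∈ KU K U ↔ v ∈ ten m U := by
  rw [mem_KU_iff, mem_ten]
  refine forall_congr' fun a => imp_congr_right fun _ => ?_
  have h1 : ∑ i, a i • KronSys_T s n v i = ∑ l, (∑ i, a i • v i) l • s l := by
    have h2 : ∀ l, (∑ i, a i • v i) l • s l = ∑ i, (a i * v i l) • s l := by
      intro l
      rw [Finset.sum_apply, Finset.sum_smul]
      refine Finset.sum_congr rfl fun i _ => ?_
      rw [Pi.smul_apply, smul_eq_mul]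
    rw [Finset.sum_congr rfl fun l _ => h2 l, Finset.sum_comm]
    refine Finset.sum_congr rfl fun i _ => ?_
    rw [KronSys_T_apply, Finset.smul_sum]
    refine Finset.sum_congr rfl fun l _ => ?_
    rw [mul_smul]
  rw [h1]
  constructor
  · intro h
    funext l
    exact Fintype.linearIndependent_iff.1 hs _ h l
  · intro h
    rw [h]
    simp

variable [CurveG k K]

theorem kron_sys {H : Dv k K} {x y : K} (hp : Pencil H x y) {j n d : ℕ} (hn : 1 ≤ n)
    (hj : (j : ℤ) ≤ gen k K - 1) (h : KSt k (j + 1) n d) :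
    ∃ (V : Submodule k (Fin n → K)) (α : ℝ), 0 < α ∧ V ≤ (pw ((j : ℤ) • H) n).H0 ∧
      finrank k V = d ∧ (pw ((j : ℤ) • H) n).StableSys α V := by
  classical
  have hg := h0_smul hp (s := (j : ℤ)) (by positivity) hj
  have hfin : finrank k (line ((j : ℤ) • H)).H0 = j + 1 := by
    have h1 : ((finrank k (line ((j : ℤ) • H)).H0 : ℕ) : ℤ) = (j : ℤ) + 1 := hg
    exact_mod_cast h1
  have : Module.Finite k (line ((j : ℤ) • H)).H0 :=
    Module.finite_of_finrank_pos (by rw [hfin]; omega)
  let b := finBasisOfFinrankEq k (line ((j : ℤ) • H)).H0 hfin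
  let s : Fin (j + 1) → K := fun l => (b l : K)
  have hs : LinearIndependent k s :=
    b.linearIndependent.map' (Submodule.subtype _) (Submodule.ker_subtype _)
  have hsm : ∀ l, s l ∈ (line ((j : ℤ) • H)).H0 := fun l => (b l).2
  have hinj := KronSys_inj hs n
  have hdeg : ddeg ((j : ℤ) • H) = 2 * j := by rw [ddeg_zsmul, hp.deg]; ring
  obtain ⟨V0, hV0, hst⟩ := h
  have hfm : ∀ X : Submodule k (Fin n → Fin (j + 1) → k),
      finrank k (X.map (KronSys_T s n)) = finrank k X := fun X =>
    (LinearEquiv.finrank_eq (Submodule.equivMapOfInjective _ hinj X)).symm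
  have hd0 : (0 : ℝ) < (d : ℝ) + 1 := by positivity
  refine ⟨V0.map (KronSys_T s n), 1 / ((d : ℝ) + 1), by positivity, ?_, ?_, ?_⟩
  · rintro _ ⟨v, _, rfl⟩
    rw [VB.mem_H0]
    intro P
    rw [mem_pw]
    intro i
    rw [KronSys_T_apply]
    refine Submodule.sum_mem _ fun l _ => Submodule.smul_mem _ _ ?_
    exact mem_line.1 (VB.mem_H0.1 (hsm l) P)
  · rw [hfm, hV0]
  · intro J hJ hJ'
    have hr0 : 0 < finrank K J := by
      rw [Nat.pos_iff_ne_zero]
      intro h0
      exact hJ (Submodule.finrank_eq_zero.1 h0)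
    have hfn : finrank K (Fin n → K) = n := by simp
    have hfin' : finrank k ↥(V0.map (KronSys_T s n)) = d := by rw [hfm, hV0]
    rw [hfn, hfin', deg_pw, hdeg]
    have hnR : (0 : ℝ) < (n : ℝ) := by exact_mod_cast hn
    have hrR : (0 : ℝ) < (finrank K J : ℝ) := by exact_mod_cast hr0
    rw [div_lt_div_iff₀ hrR hnR]
    have hle := pw_sub_le ((j : ℤ) • H) J
    rw [hdeg] at hle
    have hαd : 1 / ((d : ℝ) + 1) * d < 1 := by
      rw [one_div, inv_mul_lt_iff₀ hd0]; linarith
    have hα : 0 < 1 / ((d : ℝ) + 1) := by positivity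
    set α : ℝ := 1 / ((d : ℝ) + 1) with hαdef
    by_cases hcase : finrank K J * ddeg ((j : ℤ) • H) ≤ ((pw ((j : ℤ) • H) n).sub J).deg
    · obtain ⟨U, rfl⟩ := pw_sub_eq _ J hcase
      have hU : U ≠ ⊥ := by
        rintro rfl
        apply hJ
        rw [← Submodule.finrank_eq_zero (R := K), finrank_KU, finrank_bot]
      have hU' : U ≠ ⊤ := by
        rintro rfl
        apply hJ'
        apply Submodule.eq_top_of_finrank_eq
        rw [finrank_KU, finrank_top]; simp
      have h1 := hst U hU hU'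
      have h2 : (V0.map (KronSys_T s n)) ⊓ (KU K U).restrictScalars k =
          (V0 ⊓ ten (j + 1) U).map (KronSys_T s n) := by
        ext x
        constructor
        · rintro ⟨⟨v, hv, rfl⟩, hx⟩
          exact ⟨v, ⟨hv, (KronSys_mem hs U v).1 hx⟩, rfl⟩
        · rintro ⟨v, ⟨hv, hv'⟩, rfl⟩
          exact ⟨⟨v, hv, rfl⟩, (KronSys_mem hs U v).2 hv'⟩
      rw [h2, hfm, finrank_KU]
      rw [finrank_KU] at hle
      have h3 : (n : ℝ) * (finrank k ↥(V0 ⊓ ten (j + 1) U) : ℝ) < d * finrank k U := by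
        exact_mod_cast h1
      have h4 : ((((pw ((j : ℤ) • H) n).sub (KU K U)).deg : ℤ) : ℝ) ≤
          (finrank k U : ℝ) * (2 * j) := by exact_mod_cast hle
      have h5 := mul_lt_mul_of_pos_left h3 hα
      have h6 := mul_le_mul_of_nonneg_right h4 hnR.le
      push_cast
      nlinarith
    · push Not at hcase
      rw [hdeg] at hcase
      have h1 : ((((pw ((j : ℤ) • H) n).sub J).deg : ℤ) : ℝ) + 1 ≤
          (finrank K J : ℝ) * (2 * j) := by
        have : ((pw ((j : ℤ) • H) n).sub J).deg + 1 ≤ (finrank K J : ℤ) * (2 * j) := by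
          omega
        exact_mod_cast this
      have h2 : finrank k ↥((V0.map (KronSys_T s n)) ⊓ J.restrictScalars k) ≤ d := by
        rw [← hfin']
        exact Submodule.finrank_mono inf_le_left
      have h2' : (finrank k ↥((V0.map (KronSys_T s n)) ⊓ J.restrictScalars k) : ℝ) ≤ d := by
        exact_mod_cast h2
      have h3 := mul_le_mul_of_nonneg_left h2' hα.le
      have h4 := mul_le_mul_of_nonneg_right h1 hnR.le
      have h5 : 0 ≤ α * d * finrank K J := by positivity
      have h6 := mul_le_mul_of_nonneg_right h3 hnR.le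
      have h7 := mul_lt_mul_of_pos_right hαd hnR
      push_cast
      nlinarith

end Pool.Agent.MP_09eaec.GG
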